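import Pool.Agent.Q54.SpI.Main

set_option autoImplicit false

/-!
# MP_8dad81_al: involution length of the compact symplectic group

Every element of the compact symplectic group `Sp(n)`, `n ≥ 2`, is a product of five involutions
of `Sp(n)`; if `n` is even, then four involutions are enough.
-/

namespace Pool.Agent.Results.MP_8dad81_al.FiveInvolutions

open Matrix

/-- The matrix `J = [0, I; -I, 0]`. -/
def J (n : ℕ) : Matrix (Fin n ⊕ Fin n) (Fin n ⊕ Fin n) ℂ := fromBlocks 0 1 (-1) 0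

/-- `A` is an element of the compact symplectic group `Sp(n)`: it is a unitary matrix with
`Aᵀ J A = J`. -/
structure Sp {n : ℕ} (A : Matrix (Fin n ⊕ Fin n) (Fin n ⊕ Fin n) ℂ) : Prop where
  /-- `A` is unitary -/
  unitary : Aᴴ * A = 1
  /-- `A` is symplectic -/
  symplectic : Aᵀ * J n * A = J n

/-- `X` is an involution of `Sp(n)` (the identity counts as an involution). -/
structure Involution {n : ℕ} (X : Matrix (Fin n ⊕ Fin n) (Fin n ⊕ Fin n) ℂ) : Prop where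
  /-- `X` belongs to the group -/
  mem : Sp X
  /-- `X² = 1` -/
  sq : X * X = 1

theorem sp_iff {n : ℕ} (A : Matrix (Fin n ⊕ Fin n) (Fin n ⊕ Fin n) ℂ) :
    Sp A ↔ Q54.SpI.IsSp A :=
  ⟨fun h => ⟨mem_unitaryGroup_iff'.2 h.unitary, h.symplectic⟩,
    fun h => ⟨h.star_mul, h.2⟩⟩

theorem inv_of {n : ℕ} {X : Matrix (Fin n ⊕ Fin n) (Fin n ⊕ Fin n) ℂ}
    (h : Q54.SpI.IsInv X) : Involution X := ⟨(sp_iff X).2 h.1, h.2⟩

/-- **Involution length of `Sp(n)`.** Let `n ≥ 2`. Every element of the compact symplectic group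
`Sp(n)` is a product of five involutions of `Sp(n)`. If `n` is even, every element of `Sp(n)` is a
product of four involutions of `Sp(n)`. -/
theorem result (n : ℕ) (hn : 2 ≤ n) (A : Matrix (Fin n ⊕ Fin n) (Fin n ⊕ Fin n) ℂ)
    (hA : Sp A) :
    (∃ X₁ X₂ X₃ X₄ X₅ : Matrix (Fin n ⊕ Fin n) (Fin n ⊕ Fin n) ℂ,
      Involution X₁ ∧ Involution X₂ ∧ Involution X₃ ∧ Involution X₄ ∧ Involution X₅ ∧
      A = X₁ * X₂ * X₃ * X₄ * X₅) ∧
    (Even n → ∃ X₁ X₂ X₃ X₄ : Matrix (Fin n ⊕ Fin n) (Fin n ⊕ Fin n) ℂ,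
      Involution X₁ ∧ Involution X₂ ∧ Involution X₃ ∧ Involution X₄ ∧
      A = X₁ * X₂ * X₃ * X₄) := by
  obtain ⟨⟨X₁, X₂, X₃, X₄, X₅, h1, h2, h3, h4, h5, h6⟩, h7⟩ :=
    Q54.SpI.main hn ((sp_iff A).1 hA)
  refine ⟨⟨X₁, X₂, X₃, X₄, X₅, inv_of h1, inv_of h2, inv_of h3, inv_of h4, inv_of h5, h6⟩,
    fun he => ?_⟩
  obtain ⟨Y₁, Y₂, Y₃, Y₄, g1, g2, g3, g4, g5⟩ := h7 he
  exact ⟨Y₁, Y₂, Y₃, Y₄, inv_of g1, inv_of g2, inv_of g3, inv_of g4, g5⟩

end Pool.Agent.Results.MP_8dad81_al.FiveInvolutions
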